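import Mathlib

set_option autoImplicit false

/-!
# The numbers `u (u - s²) (u + s²)`
-/

namespace Pool.Agent.R219.CC

/-- the number -/
def nn (u s : ℕ) : ℕ := u * (u - s ^ 2) * (u + s ^ 2)

lemma not_dvd_M {p : ℕ} (hp : p.Prime) (h17 : 17 ≤ p) : Nat.Coprime p 120120 := by
  rw [Nat.Prime.coprime_iff_not_dvd hp]
  intro h
  have e : (120120 : ℕ) = 2 * (2 * (2 * (3 * (5 * (7 * (11 * 13)))))) := by norm_num
  rw [e] at h
  rcases (Nat.Prime.dvd_mul hp).1 h with h | h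
  · have := Nat.le_of_dvd (by norm_num) h; omega
  rcases (Nat.Prime.dvd_mul hp).1 h with h | h
  · have := Nat.le_of_dvd (by norm_num) h; omega
  rcases (Nat.Prime.dvd_mul hp).1 h with h | h
  · have := Nat.le_of_dvd (by norm_num) h; omega
  rcases (Nat.Prime.dvd_mul hp).1 h with h | h
  · have := Nat.le_of_dvd (by norm_num) h; omega
  rcases (Nat.Prime.dvd_mul hp).1 h with h | h
  · have := Nat.le_of_dvd (by norm_num) h; omega
  rcases (Nat.Prime.dvd_mul hp).1 h with h | h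
  · have := Nat.le_of_dvd (by norm_num) h; omega
  rcases (Nat.Prime.dvd_mul hp).1 h with h | h
  · have := Nat.le_of_dvd (by norm_num) h; omega
  · have := Nat.le_of_dvd (by norm_num) h; omega

lemma small_prime {p : ℕ} (hp : p.Prime) (h17 : p < 17) (h2 : p ≠ 2) : p ∣ 15015 := by
  interval_cases p
  · exact absurd hp (by norm_num)
  · exact absurd hp (by norm_num)
  · exact absurd rfl h2
  · norm_num
  · exact absurd hp (by norm_num)
  · norm_num
  · exact absurd hp (by norm_num)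
  · norm_num
  · exact absurd hp (by norm_num)
  · exact absurd hp (by norm_num)
  · exact absurd hp (by norm_num)
  · norm_num
  · exact absurd hp (by norm_num)
  · norm_num
  · exact absurd hp (by norm_num)
  · exact absurd hp (by norm_num)
  · exact absurd hp (by norm_num)

/-- `p ^ 2` dividing a product of three numbers -/
lemma three {p A B C : ℕ} (hp : p.Prime) (h : p * p ∣ A * B * C) :
    p ^ 2 ∣ A ∨ p ^ 2 ∣ B ∨ p ^ 2 ∣ C ∨ (p ∣ A ∧ p ∣ B) ∨ (p ∣ A ∧ p ∣ C) ∨ (p ∣ B ∧ p ∣ C) := by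
  rw [← sq] at h
  by_cases hA : p ∣ A
  · by_cases hB : p ∣ B
    · tauto
    by_cases hC : p ∣ C
    · tauto
    have h1 : Nat.Coprime (p ^ 2) C := Nat.Coprime.pow_left 2 ((Nat.Prime.coprime_iff_not_dvd hp).2 hC)
    have h2 : Nat.Coprime (p ^ 2) B := Nat.Coprime.pow_left 2 ((Nat.Prime.coprime_iff_not_dvd hp).2 hB)
    exact Or.inl (h2.dvd_of_dvd_mul_right (h1.dvd_of_dvd_mul_right h))
  · have h0 : Nat.Coprime (p ^ 2) A := Nat.Coprime.pow_left 2 ((Nat.Prime.coprime_iff_not_dvd hp).2 hA)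
    rw [mul_assoc] at h
    have h3 := h0.dvd_of_dvd_mul_left h
    by_cases hB : p ∣ B
    · by_cases hC : p ∣ C
      · tauto
      have h1 : Nat.Coprime (p ^ 2) C := Nat.Coprime.pow_left 2 ((Nat.Prime.coprime_iff_not_dvd hp).2 hC)
      exact Or.inr (Or.inl (h1.dvd_of_dvd_mul_right h3))
    · have h2 : Nat.Coprime (p ^ 2) B := Nat.Coprime.pow_left 2 ((Nat.Prime.coprime_iff_not_dvd hp).2 hB)
      exact Or.inr (Or.inr (Or.inl (h2.dvd_of_dvd_mul_left h3)))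

theorem sqf {u s : ℕ} (hs : s ^ 2 < u)
    (h2 : (u % 2 = 1 ∧ s % 2 = 0) ∨ (u % 4 = 2 ∧ s % 2 = 1))
    (hu : Nat.Coprime u 15015) (h15 : 15015 ∣ s)
    (h : ∀ p : ℕ, p.Prime → 17 ≤ p →
      ¬ p ^ 2 ∣ u ∧ ¬ p ^ 2 ∣ (u - s ^ 2) ∧ ¬ p ^ 2 ∣ (u + s ^ 2) ∧ ¬ (p ∣ u ∧ p ∣ s)) :
    Squarefree (nn u s) := by
  rw [Nat.squarefree_iff_prime_squarefree]
  intro p hp hdvd
  unfold nn at hdvd
  have hle : s ^ 2 ≤ u := hs.le
  rcases lt_or_ge p 17 with h17 | h17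
  · by_cases hp2 : p = 2
    · subst hp2
      rcases h2 with ⟨hu1, hs0⟩ | ⟨hu2, hs1⟩
      · have e1 : s ^ 2 % 2 = 0 := by rw [Nat.pow_mod, hs0]
        have o1 : Odd u := Nat.odd_iff.2 hu1
        have o2 : Odd (u - s ^ 2) := Nat.odd_iff.2 (by omega)
        have o3 : Odd (u + s ^ 2) := Nat.odd_iff.2 (by omega)
        have o4 : Odd (u * (u - s ^ 2) * (u + s ^ 2)) := (o1.mul o2).mul o3
        rw [Nat.odd_iff] at o4
        omega
      · have e1 : s ^ 2 % 2 = 1 := by rw [Nat.pow_mod, hs1]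
        have o2 : Odd (u - s ^ 2) := Nat.odd_iff.2 (by omega)
        have o3 : Odd (u + s ^ 2) := Nat.odd_iff.2 (by omega)
        have c2 : Nat.Coprime (2 * 2) (u - s ^ 2) :=
          Nat.Coprime.mul_left (Nat.coprime_two_left.2 o2) (Nat.coprime_two_left.2 o2)
        have c3 : Nat.Coprime (2 * 2) (u + s ^ 2) :=
          Nat.Coprime.mul_left (Nat.coprime_two_left.2 o3) (Nat.coprime_two_left.2 o3)
        have h4 := c2.dvd_of_dvd_mul_right (c3.dvd_of_dvd_mul_right hdvd)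
        omega
    · have h5 := small_prime hp h17 hp2
      have hps : p ∣ s := h5.trans h15
      have hpu : ¬ p ∣ u := fun h6 => by
        have h7 := Nat.dvd_gcd h6 h5
        rw [Nat.Coprime] at hu
        rw [hu] at h7
        exact hp.one_lt.ne' (Nat.dvd_one.1 h7)
      have hps2 : p ∣ s ^ 2 := hps.trans (dvd_pow_self s (by norm_num))
      have h8 : p ∣ u * (u - s ^ 2) * (u + s ^ 2) := (Dvd.intro _ rfl).trans hdvd
      rcases (Nat.Prime.dvd_mul hp).1 h8 with h9 | h9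
      · rcases (Nat.Prime.dvd_mul hp).1 h9 with h10 | h10
        · exact hpu h10
        · refine hpu ?_
          have := Nat.dvd_add h10 hps2
          rwa [Nat.sub_add_cancel hle] at this
      · exact hpu ((Nat.dvd_add_left hps2).1 h9)
  · obtain ⟨k1, k2, k3, k4⟩ := h p hp h17
    have hs_of : p ∣ s ^ 2 → p ∣ s := fun h => hp.dvd_of_dvd_pow h
    rcases three hp hdvd with h | h | h | ⟨ha, hb⟩ | ⟨ha, hb⟩ | ⟨ha, hb⟩
    · exact k1 h
    · exact k2 h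
    · exact k3 h
    · refine k4 ⟨ha, hs_of ?_⟩
      have h5 := Nat.dvd_sub ha hb
      rwa [Nat.sub_sub_self hle] at h5
    · refine k4 ⟨ha, hs_of ?_⟩
      exact (Nat.dvd_add_right ha).1 hb
    · have h5 := Nat.dvd_add ha hb
      have h6 : (u - s ^ 2) + (u + s ^ 2) = 2 * u := by omega
      rw [h6] at h5
      have h7 : p ∣ u := by
        rcases (Nat.Prime.dvd_mul hp).1 h5 with h7 | h7
        · have := Nat.le_of_dvd (by norm_num) h7
          omega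
        · exact h7
      refine k4 ⟨h7, hs_of ?_⟩
      exact (Nat.dvd_add_right h7).1 hb

/-- congruent, in terms of the area -/
theorem area {u s : ℕ} (hs0 : 0 < s) (hs : s ^ 2 < u) :
    ∃ a b c : ℚ, 0 < a ∧ 0 < b ∧ 0 < c ∧ a ^ 2 + b ^ 2 = c ^ 2 ∧ (nn u s : ℚ) = a * b / 2 := by
  have h1 : (0 : ℚ) < s := by exact_mod_cast hs0
  have h2 : ((s : ℚ)) ^ 2 < u := by exact_mod_cast hs
  have h3 : (0 : ℚ) < u := by nlinarith
  have h4 : (0 : ℚ) < (u : ℚ) ^ 2 - (s : ℚ) ^ 4 := by nlinarith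
  refine ⟨((u : ℚ) ^ 2 - (s : ℚ) ^ 4) / s, 2 * u * s, ((u : ℚ) ^ 2 + (s : ℚ) ^ 4) / s, by positivity,
    by positivity, by positivity, ?_, ?_⟩
  · field_simp
    ring
  · unfold nn
    push_cast [Nat.cast_sub hs.le]
    field_simp
    ring

/-- congruent, in terms of three squares -/
theorem three_squares {u s : ℕ} (hs0 : 0 < s) (hs : s ^ 2 < u) :
    ∃ x y z t : ℕ, 0 < x ∧ 0 < y ∧ 0 < z ∧ 0 < t ∧ x ^ 2 + nn u s * y ^ 2 = z ^ 2 ∧
      x ^ 2 = nn u s * y ^ 2 + t ^ 2 := by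
  have hs2 : ((s : ℤ)) ^ 2 < u := by exact_mod_cast hs
  have hs1 : (0 : ℤ) < s := by exact_mod_cast hs0
  have hu : (0 : ℤ) < u := by nlinarith
  have hn : ((nn u s : ℕ) : ℤ) = (u : ℤ) * ((u : ℤ) - s ^ 2) * (u + s ^ 2) := by
    unfold nn
    push_cast [Nat.cast_sub hs.le]
    ring
  set Z : ℤ := (u : ℤ) ^ 2 + 2 * u * s ^ 2 - s ^ 4 with hZ
  set T : ℤ := (u : ℤ) ^ 2 - 2 * u * s ^ 2 - s ^ 4 with hT
  have hZ0 : Z ≠ 0 := by
    have : 0 < Z := by
      rw [hZ]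
      nlinarith [mul_pos hs1 hs1]
    exact this.ne'
  have hT0 : T ≠ 0 := by
    intro h0
    have h1 : ((u : ℤ) - s ^ 2) ^ 2 = 2 * (s ^ 2) ^ 2 := by
      rw [hT] at h0
      linarith
    have h2 : (2 : ℤ) * (s ^ 2) ^ 2 ≠ 0 := by positivity
    have h3 : IsSquare ((2 : ℚ)) := by
      refine ⟨(((u : ℤ) - s ^ 2 : ℤ) : ℚ) / ((s : ℚ) ^ 2), ?_⟩
      have h4 : ((((u : ℤ) - s ^ 2 : ℤ) : ℚ)) ^ 2 = 2 * ((s : ℚ) ^ 2) ^ 2 := by exact_mod_cast h1
      have h5 : (s : ℚ) ≠ 0 := by exact_mod_cast hs0.ne'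
      rw [div_mul_div_comm, ← sq, h4, ← sq]
      field_simp
    have h6 : ¬ IsSquare (2 : ℚ) := by
      rw [show (2 : ℚ) = ((2 : ℕ) : ℚ) by norm_num, Rat.isSquare_natCast_iff]
      rintro ⟨r, hr⟩
      have : r < 2 := by nlinarith
      interval_cases r <;> omega
    exact h6 h3
  refine ⟨u ^ 2 + s ^ 4, 2 * s, Z.natAbs, T.natAbs, by positivity, by positivity,
    Int.natAbs_pos.2 hZ0, Int.natAbs_pos.2 hT0, ?_, ?_⟩
  · have h1 : (((u ^ 2 + s ^ 4) ^ 2 + nn u s * (2 * s) ^ 2 : ℕ) : ℤ) = ((Z.natAbs ^ 2 : ℕ) : ℤ) := by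
      rw [Nat.cast_pow (Z.natAbs), Int.natCast_natAbs, sq_abs, hZ]
      push_cast
      rw [hn]
      ring
    exact_mod_cast h1
  · have h1 : (((u ^ 2 + s ^ 4) ^ 2 : ℕ) : ℤ) = ((nn u s * (2 * s) ^ 2 + T.natAbs ^ 2 : ℕ) : ℤ) := by
      rw [Nat.cast_add, Nat.cast_pow (T.natAbs), Int.natCast_natAbs, sq_abs, hT]
      push_cast
      rw [hn]
      ring
    exact_mod_cast h1

end Pool.Agent.R219.CC
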