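import Mathlib
import Pool.Agent.R219.CC.Alg

set_option autoImplicit false

/-!
# Counting the bad pairs
-/

namespace Pool.Agent.R219.CC

open Finset
open scoped Classical

/-- members of an interval which are congruent to each other -/
lemma card_modEq (A : Finset ℕ) (I H q : ℕ) (_hq : 0 < q) (hA : ∀ i ∈ A, I < i ∧ i ≤ I + H)
    (hc : ∀ i ∈ A, ∀ i' ∈ A, i ≡ i' [MOD q]) : (A.card : ℝ) ≤ (H : ℝ) / q + 1 := by
  have h1 : A.card ≤ (range (H / q + 1)).card := by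
    refine Finset.card_le_card_of_injOn (fun i => (i - I - 1) / q) ?_ ?_
    · intro i hi
      have h2 := hA i hi
      rw [Finset.mem_coe, Finset.mem_range]
      refine Nat.lt_succ_of_le (Nat.div_le_div_right ?_)
      omega
    · intro i hi i' hi' h
      have h2 := hA i hi
      have h3 := hA i' hi'
      have h4 := hc i hi i' hi'
      simp only at h
      have h5 : (i - I - 1) ≡ (i' - I - 1) [MOD q] := by
        have h6 : (i - I - 1) + (I + 1) ≡ (i' - I - 1) + (I + 1) [MOD q] := by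
          rwa [show (i - I - 1) + (I + 1) = i by omega, show (i' - I - 1) + (I + 1) = i' by omega]
        exact Nat.ModEq.add_right_cancel' _ h6
      have h7 := Nat.div_add_mod (i - I - 1) q
      have h8 := Nat.div_add_mod (i' - I - 1) q
      have h9 : (i - I - 1) % q = (i' - I - 1) % q := h5
      rw [h, h9] at h7
      omega
  rw [Finset.card_range] at h1
  have h2 : ((H / q : ℕ) : ℝ) ≤ (H : ℝ) / q := Nat.cast_div_le
  have h3 : (A.card : ℝ) ≤ ((H / q + 1 : ℕ) : ℝ) := by exact_mod_cast h1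
  push_cast at h3
  linarith

/-- the members of the progression -/
def uu (u0 i : ℕ) : ℕ := u0 + 120120 * i

def ss (b j : ℕ) : ℕ := 30030 * j - b

lemma uu_modEq {u0 i i' q : ℕ} (hq : Nat.Coprime q 120120) (h : uu u0 i ≡ uu u0 i' [MOD q]) :
    i ≡ i' [MOD q] := by
  unfold uu at h
  have h1 := Nat.ModEq.add_left_cancel' _ h
  exact Nat.ModEq.cancel_left_of_coprime hq h1

variable {u0 b I H S : ℕ}

lemma cnt1 {q : ℕ} (hq0 : 0 < q) (hq : Nat.Coprime q 120120) :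
    (((Ioc I (I + H)).filter fun i => q ∣ uu u0 i).card : ℝ) ≤ (H : ℝ) / q + 1 := by
  refine card_modEq _ I H q hq0 (fun i hi => ?_) (fun i hi i' hi' => ?_)
  · rw [mem_filter, mem_Ioc] at hi
    exact hi.1
  · rw [mem_filter] at hi hi'
    refine uu_modEq (u0 := u0) hq ?_
    exact ((Nat.modEq_zero_iff_dvd).2 hi.2).trans ((Nat.modEq_zero_iff_dvd).2 hi'.2).symm

lemma cnt2 {q c : ℕ} (hq0 : 0 < q) (hq : Nat.Coprime q 120120) (hc : ∀ i, I < i → c ≤ uu u0 i) :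
    (((Ioc I (I + H)).filter fun i => q ∣ uu u0 i - c).card : ℝ) ≤ (H : ℝ) / q + 1 := by
  refine card_modEq _ I H q hq0 (fun i hi => ?_) (fun i hi i' hi' => ?_)
  · rw [mem_filter, mem_Ioc] at hi
    exact hi.1
  · rw [mem_filter, mem_Ioc] at hi hi'
    refine uu_modEq (u0 := u0) hq ?_
    exact ((Nat.modEq_iff_dvd' (hc i hi.1.1)).2 hi.2).symm.trans
      ((Nat.modEq_iff_dvd' (hc i' hi'.1.1)).2 hi'.2)

lemma cnt3 {q c : ℕ} (hq0 : 0 < q) (hq : Nat.Coprime q 120120) :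
    (((Ioc I (I + H)).filter fun i => q ∣ uu u0 i + c).card : ℝ) ≤ (H : ℝ) / q + 1 := by
  refine card_modEq _ I H q hq0 (fun i hi => ?_) (fun i hi i' hi' => ?_)
  · rw [mem_filter, mem_Ioc] at hi
    exact hi.1
  · rw [mem_filter] at hi hi'
    refine uu_modEq (u0 := u0) hq ?_
    exact Nat.ModEq.add_right_cancel' c
      (((Nat.modEq_zero_iff_dvd).2 hi.2).trans ((Nat.modEq_zero_iff_dvd).2 hi'.2).symm)

lemma cnt4 {q : ℕ} (hb : b < 30030) (hq0 : 0 < q) (hq : Nat.Coprime q 120120) :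
    (((Icc 1 S).filter fun j => q ∣ ss b j).card : ℝ) ≤ (S : ℝ) / q + 1 := by
  have hq' : Nat.Coprime q 30030 := Nat.Coprime.coprime_dvd_right (by norm_num) hq
  refine card_modEq _ 0 S q hq0 (fun i hi => ?_) (fun i hi i' hi' => ?_)
  · rw [mem_filter, mem_Icc] at hi
    omega
  · rw [mem_filter, mem_Icc] at hi hi'
    unfold ss at hi hi'
    have h1 : b ≤ 30030 * i := by omega
    have h2 : b ≤ 30030 * i' := by omega
    have h3 := ((Nat.modEq_iff_dvd' h1).2 hi.2).symm.trans ((Nat.modEq_iff_dvd' h2).2 hi'.2)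
    exact Nat.ModEq.cancel_left_of_coprime hq' h3

/-- the bad pairs -/
def Bad (u0 b i j : ℕ) : Prop :=
  ∃ p : ℕ, p.Prime ∧ 17 ≤ p ∧ (p ^ 2 ∣ uu u0 i ∨ p ^ 2 ∣ (uu u0 i - ss b j ^ 2) ∨
    p ^ 2 ∣ (uu u0 i + ss b j ^ 2) ∨ (p ∣ uu u0 i ∧ p ∣ ss b j))

lemma sum_inv_sq (D : ℕ) : ∑ p ∈ Icc 17 D, 1 / ((p : ℝ) ^ 2) ≤ 1 / 16 := by
  rcases le_or_gt 16 D with h | h
  · have h1 := sum_Ioc_inv_sq_le_sub (α := ℝ) (k := 16) (n := D) (by norm_num) h
    have h2 : Ioc 16 D = Icc 17 D := by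
      ext x; rw [mem_Ioc, mem_Icc]; omega
    rw [h2] at h1
    have h3 : (0 : ℝ) ≤ ((D : ℝ))⁻¹ := by positivity
    have h4 : ∑ p ∈ Icc 17 D, 1 / ((p : ℝ) ^ 2) = ∑ p ∈ Icc 17 D, ((p : ℝ) ^ 2)⁻¹ :=
      Finset.sum_congr rfl fun p _ => one_div _
    rw [h4]
    norm_num at h1 ⊢
    linarith
  · rw [Finset.Icc_eq_empty (by omega)]
    simp

lemma sum_inv (n : ℕ) : ∑ p ∈ Icc 1 n, 1 / (p : ℝ) ≤ 2 * √(n : ℝ) := by
  induction n with
  | zero => simp
  | succ n ih =>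
    rw [Finset.sum_Icc_succ_top (by omega)]
    have h1 : (0 : ℝ) ≤ n := Nat.cast_nonneg n
    set a := √(n : ℝ) with ha
    set c := √((n + 1 : ℕ) : ℝ) with hc
    have ha2 : a ^ 2 = n := Real.sq_sqrt h1
    have hc2 : c ^ 2 = n + 1 := by
      rw [hc, Real.sq_sqrt (by positivity)]
      push_cast
      ring
    have ha0 : 0 ≤ a := Real.sqrt_nonneg _
    have hc1 : 1 ≤ c := by
      rw [hc]
      refine Real.one_le_sqrt.2 ?_
      push_cast
      linarith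
    have hac : a ≤ c := Real.sqrt_le_sqrt (by push_cast; linarith)
    have h2 : 1 / (((n + 1 : ℕ) : ℝ)) = 1 / c ^ 2 := by
      rw [hc2]
      push_cast
      ring
    rw [h2]
    have h3 : 1 / c ^ 2 ≤ 2 * (c - a) := by
      rw [div_le_iff₀ (by positivity)]
      have h4 : (c - a) * (c + a) = 1 := by nlinarith
      nlinarith [mul_nonneg (sub_nonneg.2 hac) (sub_nonneg.2 hc1)]
    linarith

theorem bad_count (hb : b < 30030) {D : ℕ}
    (hlow : ∀ i, I < i → ∀ j ∈ Icc 1 S, ss b j ^ 2 < uu u0 i)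
    (hupp : ∀ i ∈ Ioc I (I + H), ∀ j ∈ Icc 1 S, uu u0 i + ss b j ^ 2 < D ^ 2)
    (hS : (30750720 : ℝ) ≤ S) (hHS : (S : ℝ) ≤ H) (hHD : (H : ℝ) = 48 * D) :
    ∑ i ∈ Ioc I (I + H), ∑ j ∈ Icc 1 S, (if Bad u0 b i j then (1 : ℝ) else 0) ≤ S * H / 2 := by
  have hS0 : (0 : ℝ) < S := by linarith
  have hH0 : (0 : ℝ) < H := by linarith
  have hss0 : ∀ j ∈ Icc 1 S, 0 < ss b j := by
    intro j hj
    rw [mem_Icc] at hj
    unfold ss
    omega
  have hss1 : ∀ j ∈ Icc 1 S, ss b j ≤ 30030 * S := by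
    intro j hj
    rw [mem_Icc] at hj
    unfold ss
    omega
  set P1 : Finset ℕ := (Icc 17 D).filter Nat.Prime with hP1
  set P2 : Finset ℕ := (Icc 17 (30030 * S)).filter Nat.Prime with hP2
  -- pointwise
  have hpt : ∀ i ∈ Ioc I (I + H), ∀ j ∈ Icc 1 S, (if Bad u0 b i j then (1 : ℝ) else 0) ≤
      (∑ p ∈ P1, ((if p ^ 2 ∣ uu u0 i then (1 : ℝ) else 0) +
        (if p ^ 2 ∣ (uu u0 i - ss b j ^ 2) then (1 : ℝ) else 0) +
        (if p ^ 2 ∣ (uu u0 i + ss b j ^ 2) then (1 : ℝ) else 0))) +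
      ∑ p ∈ P2, (if p ∣ uu u0 i then (1 : ℝ) else 0) * (if p ∣ ss b j then (1 : ℝ) else 0) := by
    intro i hi j hj
    have hnn1 : ∀ p ∈ P1, (0 : ℝ) ≤ ((if p ^ 2 ∣ uu u0 i then (1 : ℝ) else 0) +
        (if p ^ 2 ∣ (uu u0 i - ss b j ^ 2) then (1 : ℝ) else 0) +
        (if p ^ 2 ∣ (uu u0 i + ss b j ^ 2) then (1 : ℝ) else 0)) := by
      intro p _
      split_ifs <;> norm_num
    have hnn2 : ∀ p ∈ P2, (0 : ℝ) ≤
        (if p ∣ uu u0 i then (1 : ℝ) else 0) * (if p ∣ ss b j then (1 : ℝ) else 0) := by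
      intro p _
      split_ifs <;> norm_num
    have hI := (mem_Ioc.1 hi).1
    have hlo := hlow i hI j hj
    have hup := hupp i hi j hj
    split_ifs with hbad
    · obtain ⟨p, hp, h17, hcase⟩ := hbad
      have hmem : ∀ x : ℕ, 0 < x → x ≤ uu u0 i + ss b j ^ 2 → p ^ 2 ∣ x → p ∈ P1 := by
        intro x hx0 hx hd
        have h1 := (Nat.le_of_dvd hx0 hd).trans hx
        have h2 : p < D := lt_of_pow_lt_pow_left₀ 2 (Nat.zero_le _) (h1.trans_lt hup)
        rw [hP1, mem_filter, mem_Icc]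
        exact ⟨⟨h17, h2.le⟩, hp⟩
      have hs2 := Finset.sum_nonneg hnn2
      have hs1 := Finset.sum_nonneg hnn1
      rcases hcase with hc | hc | hc | ⟨hc1, hc2⟩
      · have hm := hmem _ (by omega) (by omega) hc
        have h3 := Finset.single_le_sum hnn1 hm
        rw [if_pos hc] at h3
        have h4 : (0 : ℝ) ≤ (if p ^ 2 ∣ (uu u0 i - ss b j ^ 2) then (1 : ℝ) else 0) := by
          split_ifs <;> norm_num
        have h5 : (0 : ℝ) ≤ (if p ^ 2 ∣ (uu u0 i + ss b j ^ 2) then (1 : ℝ) else 0) := by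
          split_ifs <;> norm_num
        linarith
      · have hm := hmem _ (by omega) (by omega) hc
        have h3 := Finset.single_le_sum hnn1 hm
        rw [if_pos hc] at h3
        have h4 : (0 : ℝ) ≤ (if p ^ 2 ∣ uu u0 i then (1 : ℝ) else 0) := by
          split_ifs <;> norm_num
        have h5 : (0 : ℝ) ≤ (if p ^ 2 ∣ (uu u0 i + ss b j ^ 2) then (1 : ℝ) else 0) := by
          split_ifs <;> norm_num
        linarith
      · have hm := hmem _ (by omega) le_rfl hc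
        have h3 := Finset.single_le_sum hnn1 hm
        rw [if_pos hc] at h3
        have h4 : (0 : ℝ) ≤ (if p ^ 2 ∣ uu u0 i then (1 : ℝ) else 0) := by
          split_ifs <;> norm_num
        have h5 : (0 : ℝ) ≤ (if p ^ 2 ∣ (uu u0 i - ss b j ^ 2) then (1 : ℝ) else 0) := by
          split_ifs <;> norm_num
        linarith
      · have hm : p ∈ P2 := by
          rw [hP2, mem_filter, mem_Icc]
          exact ⟨⟨h17, (Nat.le_of_dvd (hss0 j hj) hc2).trans (hss1 j hj)⟩, hp⟩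
        have h3 := Finset.single_le_sum hnn2 hm
        rw [if_pos hc1, if_pos hc2] at h3
        linarith
    · exact add_nonneg (Finset.sum_nonneg hnn1) (Finset.sum_nonneg hnn2)
  have h1 := Finset.sum_le_sum fun i hi => Finset.sum_le_sum fun j hj => hpt i hi j hj
  refine h1.trans ?_
  simp only [Finset.sum_add_distrib]
  -- the indicator sums
  have ind : ∀ (A : Finset ℕ) (Pr : ℕ → Prop) [DecidablePred Pr],
      ∑ i ∈ A, (if Pr i then (1 : ℝ) else 0) = ((A.filter Pr).card : ℝ) := by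
    intro A Pr _
    rw [Finset.card_filter]
    push_cast
    rfl
  have hcop : ∀ p : ℕ, p.Prime → 17 ≤ p → Nat.Coprime (p ^ 2) 120120 := fun p hp h17 =>
    Nat.Coprime.pow_left 2 (not_dvd_M hp h17)
  have hD0 : (0 : ℝ) ≤ D := Nat.cast_nonneg D
  have hsumP1 : ∑ p ∈ P1, ((H : ℝ) / ((p ^ 2 : ℕ) : ℝ) + 1) ≤ (H : ℝ) / 16 + D := by
    have h2 : ∑ p ∈ P1, ((H : ℝ) / ((p ^ 2 : ℕ) : ℝ) + 1) ≤
        ∑ p ∈ Icc 17 D, ((H : ℝ) / ((p ^ 2 : ℕ) : ℝ) + 1) :=
      Finset.sum_le_sum_of_subset_of_nonneg (Finset.filter_subset _ _) fun p _ _ => by positivity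
    refine h2.trans ?_
    rw [Finset.sum_add_distrib]
    refine add_le_add ?_ ?_
    · have h3 : ∑ p ∈ Icc 17 D, (H : ℝ) / ((p ^ 2 : ℕ) : ℝ) =
          H * ∑ p ∈ Icc 17 D, 1 / ((p : ℝ) ^ 2) := by
        rw [Finset.mul_sum]
        refine Finset.sum_congr rfl fun p _ => ?_
        push_cast
        ring
      rw [h3]
      have := mul_le_mul_of_nonneg_left (sum_inv_sq D) hH0.le
      linarith
    · rw [Finset.sum_const, Nat.card_Icc, nsmul_eq_mul, mul_one]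
      have : D + 1 - 17 ≤ D := by omega
      exact_mod_cast this
  have hA : ∑ i ∈ Ioc I (I + H), ∑ j ∈ Icc 1 S, ∑ p ∈ P1, (if p ^ 2 ∣ uu u0 i then (1 : ℝ) else 0) ≤
      S * ((H : ℝ) / 16 + D) := by
    rw [Finset.sum_comm]
    have h2 : ∀ j ∈ Icc 1 S, ∑ i ∈ Ioc I (I + H), ∑ p ∈ P1, (if p ^ 2 ∣ uu u0 i then (1 : ℝ) else 0) ≤
        (H : ℝ) / 16 + D := by
      intro j _
      rw [Finset.sum_comm]
      refine le_trans (Finset.sum_le_sum fun p hp => ?_) hsumP1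
      rw [hP1, mem_filter, mem_Icc] at hp
      rw [ind (Ioc I (I + H)) (fun i => p ^ 2 ∣ uu u0 i)]
      exact cnt1 (by have := hp.2.pos; positivity) (hcop p hp.2 hp.1.1)
    refine (Finset.sum_le_sum h2).trans (le_of_eq ?_)
    rw [Finset.sum_const, Nat.card_Icc, nsmul_eq_mul, Nat.add_sub_cancel]
  have hB : ∑ i ∈ Ioc I (I + H), ∑ j ∈ Icc 1 S, ∑ p ∈ P1,
      (if p ^ 2 ∣ (uu u0 i - ss b j ^ 2) then (1 : ℝ) else 0) ≤ S * ((H : ℝ) / 16 + D) := by
    rw [Finset.sum_comm]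
    have h2 : ∀ j ∈ Icc 1 S, ∑ i ∈ Ioc I (I + H), ∑ p ∈ P1,
        (if p ^ 2 ∣ (uu u0 i - ss b j ^ 2) then (1 : ℝ) else 0) ≤ (H : ℝ) / 16 + D := by
      intro j hj
      rw [Finset.sum_comm]
      refine le_trans (Finset.sum_le_sum fun p hp => ?_) hsumP1
      rw [hP1, mem_filter, mem_Icc] at hp
      rw [ind (Ioc I (I + H)) (fun i => p ^ 2 ∣ (uu u0 i - ss b j ^ 2))]
      exact cnt2 (by have := hp.2.pos; positivity) (hcop p hp.2 hp.1.1)
        (fun i hi => (hlow i hi j hj).le)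
    refine (Finset.sum_le_sum h2).trans (le_of_eq ?_)
    rw [Finset.sum_const, Nat.card_Icc, nsmul_eq_mul, Nat.add_sub_cancel]
  have hC : ∑ i ∈ Ioc I (I + H), ∑ j ∈ Icc 1 S, ∑ p ∈ P1,
      (if p ^ 2 ∣ (uu u0 i + ss b j ^ 2) then (1 : ℝ) else 0) ≤ S * ((H : ℝ) / 16 + D) := by
    rw [Finset.sum_comm]
    have h2 : ∀ j ∈ Icc 1 S, ∑ i ∈ Ioc I (I + H), ∑ p ∈ P1,
        (if p ^ 2 ∣ (uu u0 i + ss b j ^ 2) then (1 : ℝ) else 0) ≤ (H : ℝ) / 16 + D := by
      intro j hj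
      rw [Finset.sum_comm]
      refine le_trans (Finset.sum_le_sum fun p hp => ?_) hsumP1
      rw [hP1, mem_filter, mem_Icc] at hp
      rw [ind (Ioc I (I + H)) (fun i => p ^ 2 ∣ (uu u0 i + ss b j ^ 2))]
      exact cnt3 (by have := hp.2.pos; positivity) (hcop p hp.2 hp.1.1)
    refine (Finset.sum_le_sum h2).trans (le_of_eq ?_)
    rw [Finset.sum_const, Nat.card_Icc, nsmul_eq_mul, Nat.add_sub_cancel]
  have hE : ∑ i ∈ Ioc I (I + H), ∑ j ∈ Icc 1 S, ∑ p ∈ P2,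
      (if p ∣ uu u0 i then (1 : ℝ) else 0) * (if p ∣ ss b j then (1 : ℝ) else 0) ≤
      H * S / 16 + (H + S) * (2 * √(((30030 * S : ℕ) : ℝ))) + 30030 * S := by
    have h2 : ∑ i ∈ Ioc I (I + H), ∑ j ∈ Icc 1 S, ∑ p ∈ P2,
        (if p ∣ uu u0 i then (1 : ℝ) else 0) * (if p ∣ ss b j then (1 : ℝ) else 0) =
        ∑ p ∈ P2, (∑ i ∈ Ioc I (I + H), (if p ∣ uu u0 i then (1 : ℝ) else 0)) *
          (∑ j ∈ Icc 1 S, (if p ∣ ss b j then (1 : ℝ) else 0)) := by
      have h3 : ∀ i ∈ Ioc I (I + H), ∑ j ∈ Icc 1 S, ∑ p ∈ P2,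
          (if p ∣ uu u0 i then (1 : ℝ) else 0) * (if p ∣ ss b j then (1 : ℝ) else 0) =
          ∑ p ∈ P2, ∑ j ∈ Icc 1 S,
          (if p ∣ uu u0 i then (1 : ℝ) else 0) * (if p ∣ ss b j then (1 : ℝ) else 0) :=
        fun i _ => Finset.sum_comm
      rw [Finset.sum_congr rfl h3, Finset.sum_comm]
      refine Finset.sum_congr rfl fun p _ => ?_
      rw [Finset.sum_mul_sum]
    rw [h2]
    have h4 : ∀ p ∈ P2, (∑ i ∈ Ioc I (I + H), (if p ∣ uu u0 i then (1 : ℝ) else 0)) *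
          (∑ j ∈ Icc 1 S, (if p ∣ ss b j then (1 : ℝ) else 0)) ≤
        H * S * (1 / (p : ℝ) ^ 2) + (H + S) * (1 / (p : ℝ)) + 1 := by
      intro p hp
      rw [hP2, mem_filter, mem_Icc] at hp
      have hp0 : (0 : ℝ) < p := by exact_mod_cast hp.2.pos
      rw [ind (Ioc I (I + H)) (fun i => p ∣ uu u0 i), ind (Icc 1 S) (fun j => p ∣ ss b j)]
      have h5 := cnt1 (u0 := u0) (I := I) (H := H) hp.2.pos (not_dvd_M hp.2 hp.1.1)
      have h6 := cnt4 (S := S) hb hp.2.pos (not_dvd_M hp.2 hp.1.1)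
      refine (mul_le_mul h5 h6 (Nat.cast_nonneg _) (by positivity)).trans (le_of_eq ?_)
      field_simp
      ring
    refine (Finset.sum_le_sum h4).trans ?_
    have h7 : ∑ p ∈ P2, (H * S * (1 / (p : ℝ) ^ 2) + (H + S) * (1 / (p : ℝ)) + 1) ≤
        ∑ p ∈ Icc 17 (30030 * S), (H * S * (1 / (p : ℝ) ^ 2) + (H + S) * (1 / (p : ℝ)) + 1) :=
      Finset.sum_le_sum_of_subset_of_nonneg (Finset.filter_subset _ _) fun p _ _ => by positivity
    refine h7.trans ?_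
    rw [Finset.sum_add_distrib, Finset.sum_add_distrib, ← Finset.mul_sum, ← Finset.mul_sum]
    have h8 := mul_le_mul_of_nonneg_left (sum_inv_sq (30030 * S)) (by positivity : (0 : ℝ) ≤ (H : ℝ) * S)
    have h9 : ∑ p ∈ Icc 17 (30030 * S), 1 / (p : ℝ) ≤ 2 * √(((30030 * S : ℕ) : ℝ)) := by
      refine le_trans ?_ (sum_inv (30030 * S))
      refine Finset.sum_le_sum_of_subset_of_nonneg ?_ fun p _ _ => by positivity
      intro p hp
      rw [mem_Icc] at hp ⊢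
      omega
    have h10 := mul_le_mul_of_nonneg_left h9 (by positivity : (0 : ℝ) ≤ (H : ℝ) + S)
    have h11 : ∑ p ∈ Icc 17 (30030 * S), (1 : ℝ) ≤ 30030 * S := by
      rw [Finset.sum_const, Nat.card_Icc, nsmul_eq_mul, mul_one]
      have : 30030 * S + 1 - 17 ≤ 30030 * S := by omega
      exact_mod_cast this
    linarith
  -- the square root
  have hsq : 2 * √(((30030 * S : ℕ) : ℝ)) ≤ S / 16 := by
    have h2 : √(((30030 * S : ℕ) : ℝ)) ≤ S / 32 := by
      rw [Real.sqrt_le_left (by positivity)]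
      push_cast
      nlinarith
    linarith
  have hsq2 : (H + S) * (2 * √(((30030 * S : ℕ) : ℝ))) ≤ (H + S) * ((S : ℝ) / 16) :=
    mul_le_mul_of_nonneg_left hsq (by positivity)
  have hSS : (S : ℝ) * S ≤ S * H := mul_le_mul_of_nonneg_left hHS hS0.le
  have hSD : (S : ℝ) * D = S * H / 48 := by
    rw [hHD]
    ring
  have h30 : (30030 : ℝ) * S ≤ S * H / 16 := by nlinarith
  nlinarith

end Pool.Agent.R219.CC
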