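import Pool.Agent.R219.CC.Main

set_option autoImplicit false

/-!
# Clusters, in the form used by the results files
-/

namespace Pool.Agent.R219.CC

theorem clusters (P : ℕ → Prop) (hP : ∀ u s : ℕ, 0 < s → s ^ 2 < u → P (nn u s)) :
    ∃ C : ℝ, 0 < C ∧ ∀ (X : ℝ) (K r : ℕ), 1 ≤ X → 1 ≤ K → (K : ℝ) ≤ X ^ (1 / 6 : ℝ) →
      (r = 1 ∨ r = 2 ∨ r = 3 ∨ r = 5 ∨ r = 6 ∨ r = 7) →
      ∃ Z : ℝ, X ≤ Z ∧ Z ≤ X + C * K * X ^ (5 / 6 : ℝ) ∧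
        K ≤ {n : ℕ | Z ≤ n ∧ (n : ℝ) ≤ Z + C * (K : ℝ) ^ 4 * X ^ (1 / 3 : ℝ) ∧ n % 8 = r ∧
          Squarefree n ∧ P n}.ncard := by
  obtain ⟨C, hC, h⟩ := main
  refine ⟨C, hC, fun X K r hX hK hKX hr => ?_⟩
  obtain ⟨u0, b, hc⟩ := cls r hr
  obtain ⟨Z, h1, h2, N, h3, h4⟩ := h X K hX hK hKX r u0 b hc
  refine ⟨Z, h1, h2, h3.trans ?_⟩
  have hfin : {n : ℕ | Z ≤ n ∧ (n : ℝ) ≤ Z + C * (K : ℝ) ^ 4 * X ^ (1 / 3 : ℝ) ∧ n % 8 = r ∧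
      Squarefree n ∧ P n}.Finite := by
    apply (Set.finite_Iic ⌊Z + C * (K : ℝ) ^ 4 * X ^ (1 / 3 : ℝ)⌋₊).subset
    intro n hn
    exact Nat.le_floor hn.2.1
  rw [← Set.ncard_coe_finset]
  refine Set.ncard_le_ncard ?_ hfin
  intro n hn
  obtain ⟨a1, a2, a3, a4, u, s, hs0, hs, rfl⟩ := h4 n (Finset.mem_coe.1 hn)
  exact ⟨a1, a2, a3, a4, hP u s hs0 hs⟩

end Pool.Agent.R219.CC
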