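import Mathlib
import Pool.Agent.R219.CC.Count

set_option autoImplicit false

/-!
# Clusters of squarefree numbers `u (u - s²) (u + s²)`
-/

namespace Pool.Agent.R219.CC

open Finset
open scoped Classical

variable {u0 b I H S : ℕ}

theorem exists_good (hb : b < 30030) {D : ℕ}
    (hlow : ∀ i, I < i → ∀ j ∈ Icc 1 S, ss b j ^ 2 < uu u0 i)
    (hupp : ∀ i ∈ Ioc I (I + H), ∀ j ∈ Icc 1 S, uu u0 i + ss b j ^ 2 < D ^ 2)
    (hS : (30750720 : ℝ) ≤ S) (hHS : (S : ℝ) ≤ H) (hHD : (H : ℝ) = 48 * D) :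
    ∃ i ∈ Ioc I (I + H), (S : ℝ) / 2 ≤ (((Icc 1 S).filter fun j => ¬ Bad u0 b i j).card : ℝ) := by
  by_contra hcon
  push Not at hcon
  have h1 := bad_count hb hlow hupp hS hHS hHD
  have hH0 : (0 : ℝ) < H := by linarith
  have hne : (Ioc I (I + H)).Nonempty := by
    rw [Finset.nonempty_Ioc]
    have : 0 < H := by exact_mod_cast hH0
    omega
  have h2 : ∀ i ∈ Ioc I (I + H), (S : ℝ) / 2 < ∑ j ∈ Icc 1 S, (if Bad u0 b i j then (1 : ℝ) else 0) := by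
    intro i hi
    have h3 := hcon i hi
    have h4 : ∑ j ∈ Icc 1 S, (if Bad u0 b i j then (1 : ℝ) else 0) =
        (((Icc 1 S).filter fun j => Bad u0 b i j).card : ℝ) := by
      rw [Finset.card_filter]
      push_cast
      rfl
    rw [h4]
    have h5 := Finset.card_filter_add_card_filter_not (s := Icc 1 S) (fun j => Bad u0 b i j)
    rw [Nat.card_Icc, Nat.add_sub_cancel] at h5
    have h6 : (((Icc 1 S).filter fun j => Bad u0 b i j).card : ℝ) +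
        (((Icc 1 S).filter fun j => ¬ Bad u0 b i j).card : ℝ) = S := by exact_mod_cast h5
    linarith
  have h3 := Finset.sum_lt_sum_of_nonempty hne h2
  rw [Finset.sum_const, Nat.card_Ioc, Nat.add_sub_cancel_left, nsmul_eq_mul] at h3
  linarith

/-- data for the residue class `r` modulo `8` -/
def Cls (r u0 b : ℕ) : Prop :=
  Nat.Coprime u0 15015 ∧ u0 < 120120 ∧ r < 8 ∧
    ((b = 0 ∧ u0 % 8 = r ∧ r % 2 = 1) ∨ (b = 15015 ∧ u0 % 4 = 2 ∧ (u0 + r) % 8 = 0))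

lemma cls (r : ℕ) (hr : r = 1 ∨ r = 2 ∨ r = 3 ∨ r = 5 ∨ r = 6 ∨ r = 7) : ∃ u0 b, Cls r u0 b := by
  rcases hr with rfl | rfl | rfl | rfl | rfl | rfl
  · exact ⟨1, 0, by norm_num, by norm_num, by norm_num, Or.inl ⟨rfl, by norm_num, by norm_num⟩⟩
  · exact ⟨45046, 15015, by norm_num, by norm_num, by norm_num, Or.inr ⟨rfl, by norm_num, by norm_num⟩⟩
  · exact ⟨90091, 0, by norm_num, by norm_num, by norm_num, Or.inl ⟨rfl, by norm_num, by norm_num⟩⟩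
  · exact ⟨60061, 0, by norm_num, by norm_num, by norm_num, Or.inl ⟨rfl, by norm_num, by norm_num⟩⟩
  · exact ⟨105106, 15015, by norm_num, by norm_num, by norm_num, Or.inr ⟨rfl, by norm_num, by norm_num⟩⟩
  · exact ⟨30031, 0, by norm_num, by norm_num, by norm_num, Or.inl ⟨rfl, by norm_num, by norm_num⟩⟩

lemma nn_int {u s : ℕ} (hs : s ^ 2 < u) : ((nn u s : ℕ) : ℤ) = (u : ℤ) ^ 3 - u * (s : ℤ) ^ 4 := by
  unfold nn
  push_cast [Nat.cast_sub hs.le]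
  ring

lemma nn_mod {r u0 b i j : ℕ} (h : Cls r u0 b) (hj : 1 ≤ j) (hs : ss b j ^ 2 < uu u0 i) :
    nn (uu u0 i) (ss b j) % 8 = r := by
  obtain ⟨_, _, hr8, h⟩ := h
  have h1 := nn_int hs
  set u := uu u0 i with hu
  set s := ss b j with hsdef
  have hu8 : u % 8 = u0 % 8 := by
    rw [hu]
    unfold uu
    omega
  have key : ((nn u s : ℕ) : ℤ) % 8 = (r : ℤ) := by
    rw [h1]
    rcases h with ⟨hb, hur, hr⟩ | ⟨hb, hu4, hur⟩
    · have hs2 : ∃ m : ℕ, s = 2 * m := ⟨15015 * j, by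
        rw [hsdef, hb]
        unfold ss
        omega⟩
      obtain ⟨m, hm⟩ := hs2
      obtain ⟨k, hk⟩ : ∃ k : ℕ, u = 8 * k + r := ⟨u / 8, by omega⟩
      have hr' : r = 1 ∨ r = 3 ∨ r = 5 ∨ r = 7 := by omega
      rw [hm, hk]
      rcases hr' with rfl | rfl | rfl | rfl <;>
      · push_cast
        ring_nf
        omega
    · have hs2 : ∃ m : ℕ, s = 2 * m + 1 := ⟨15015 * j - 7508, by
        rw [hsdef, hb]
        unfold ss
        omega⟩
      obtain ⟨m, hm⟩ := hs2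
      have hs4 : ∃ l : ℤ, (s : ℤ) ^ 2 = 8 * l + 1 := by
        rw [hm]
        push_cast
        rcases Int.even_or_odd' (m : ℤ) with ⟨w, hw | hw⟩
        · refine ⟨w * (2 * w + 1), ?_⟩
          rw [hw]; ring
        · refine ⟨(2 * w + 1) * (w + 1), ?_⟩
          rw [hw]; ring
      obtain ⟨l, hl⟩ := hs4
      have e1 : (s : ℤ) ^ 4 = (8 * l + 1) ^ 2 := by
        rw [← hl]; ring
      rw [e1]
      have hu' : u0 % 8 = 2 ∨ u0 % 8 = 6 := by omega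
      rcases hu' with hu' | hu'
      · obtain ⟨k, hk⟩ : ∃ k : ℕ, u = 8 * k + 2 := ⟨u / 8, by omega⟩
        have : r = 6 := by omega
        rw [hk, this]
        push_cast
        ring_nf
        omega
      · obtain ⟨k, hk⟩ : ∃ k : ℕ, u = 8 * k + 6 := ⟨u / 8, by omega⟩
        have : r = 2 := by omega
        rw [hk, this]
        push_cast
        ring_nf
        omega
  omega

lemma good_sqf {r u0 b i j : ℕ} (h : Cls r u0 b) (hj : 1 ≤ j) (hs : ss b j ^ 2 < uu u0 i)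
    (hg : ¬ Bad u0 b i j) : Squarefree (nn (uu u0 i) (ss b j)) := by
  obtain ⟨hc, _, _, h⟩ := h
  refine sqf hs ?_ ?_ ?_ ?_
  · rcases h with ⟨hb, hur, hr⟩ | ⟨hb, hu4, hur⟩
    · left
      subst hb
      unfold uu ss
      omega
    · right
      subst hb
      unfold uu ss
      omega
  · unfold uu
    rw [show u0 + 120120 * i = u0 + 15015 * (8 * i) by ring]
    exact (Nat.coprime_add_mul_left_left u0 15015 (8 * i)).2 hc
  · unfold ss
    refine Nat.dvd_sub ?_ ?_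
    · exact ⟨2 * j, by ring⟩
    · rcases h with ⟨hb, _, _⟩ | ⟨hb, _, _⟩
      · rw [hb]; exact dvd_zero _
      · rw [hb]
  · intro p hp h17
    unfold Bad at hg
    push Not at hg
    have h1 := hg p hp h17
    exact ⟨h1.1, h1.2.1, h1.2.2.1, fun h2 => h1.2.2.2 h2.1 h2.2⟩

lemma nn_inj {u s s' : ℕ} (hu : 0 < u) (hs : s ^ 2 < u) (hs' : s' ^ 2 < u) (h : nn u s = nn u s') :
    s = s' := by
  have h1 := nn_int hs
  have h2 := nn_int hs'
  rw [h, h2] at h1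
  have h3 : (u : ℤ) ≠ 0 := by exact_mod_cast hu.ne'
  have h4 : (u : ℤ) * (s : ℤ) ^ 4 = u * (s' : ℤ) ^ 4 := by linarith
  have h5 := mul_left_cancel₀ h3 h4
  have h6 : s ^ 4 = s' ^ 4 := by exact_mod_cast h5
  exact Nat.pow_left_injective (n := 4) (by norm_num) h6

/-- **Clusters.** -/
theorem main : ∃ C : ℝ, 0 < C ∧ ∀ (X : ℝ) (K : ℕ), 1 ≤ X → 1 ≤ K → (K : ℝ) ≤ X ^ (1 / 6 : ℝ) →
    ∀ r u0 b : ℕ, Cls r u0 b → ∃ Z : ℝ, X ≤ Z ∧ Z ≤ X + C * K * X ^ (5 / 6 : ℝ) ∧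
      ∃ N : Finset ℕ, K ≤ N.card ∧ ∀ n ∈ N, Z ≤ n ∧ (n : ℝ) ≤ Z + C * (K : ℝ) ^ 4 * X ^ (1 / 3 : ℝ) ∧
        n % 8 = r ∧ Squarefree n ∧ ∃ u s : ℕ, 0 < s ∧ s ^ 2 < u ∧ n = nn u s := by
  set a : ℝ := 30030 * 61501440 with ha
  set c1 : ℝ := 100 * 120120 + 61501440 + 4 + 3 * a with hc1
  set c2 : ℝ := 120120 + 1 + a ^ 2 + 48 * 120120 * c1 with hc2
  have ha0 : 0 < a := by rw [ha]; norm_num
  have hc10 : 0 < c1 := by rw [hc1]; positivity
  have hc20 : 0 < c2 := by rw [hc2]; positivity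
  refine ⟨(3 * c2 + 3 * c2 ^ 2 + c2 ^ 3) + (1 + c2) * a ^ 4, by positivity, ?_⟩
  intro X K hX hK hKX r u0 b hcls
  set Y : ℝ := X ^ (1 / 6 : ℝ) with hY
  have hX0 : 0 < X := by linarith
  have hY1 : 1 ≤ Y := Real.one_le_rpow hX (by norm_num)
  have hY0 : 0 < Y := by linarith
  have hY2 : X ^ (1 / 3 : ℝ) = Y ^ 2 := by
    rw [hY, ← Real.rpow_natCast, ← Real.rpow_mul hX0.le]
    norm_num
  have hY5 : X ^ (5 / 6 : ℝ) = Y ^ 5 := by
    rw [hY, ← Real.rpow_natCast, ← Real.rpow_mul hX0.le]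
    norm_num
  have hY6 : X = Y ^ 6 := by
    rw [hY, ← Real.rpow_natCast, ← Real.rpow_mul hX0.le]
    norm_num
  have hK1 : (1 : ℝ) ≤ K := by exact_mod_cast hK
  have hKY : 1 ≤ (K : ℝ) * Y := one_le_mul_of_one_le_of_one_le hK1 hY1
  -- the parameters
  set S : ℕ := 61501440 * K with hS
  set σ : ℕ := 30030 * S with hσ
  set V : ℕ := ⌈Y ^ 2⌉₊ with hV
  set U : ℕ := V + σ ^ 2 with hU
  set I : ℕ := U / 120120 with hI
  set W : ℕ := Nat.sqrt (4 * (U + σ ^ 2)) + 1 with hW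
  set D : ℕ := 100 * 120120 + S + W with hD
  set H : ℕ := 48 * D with hH
  have hb : b < 30030 := by
    obtain ⟨_, _, _, h⟩ := hcls
    rcases h with ⟨h, _⟩ | ⟨h, _⟩ <;> omega
  have hu0 : u0 < 120120 := hcls.2.1
  have hss : ∀ j ∈ Icc 1 S, ss b j ≤ σ := by
    intro j hj
    rw [mem_Icc] at hj
    unfold ss
    rw [hσ]
    omega
  have hUlow : ∀ i, I < i → U < uu u0 i := by
    intro i hi
    unfold uu
    have := Nat.lt_mul_div_succ U (show 0 < 120120 by norm_num)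
    have h1 : U / 120120 + 1 ≤ i := hi
    have h2 : 120120 * (U / 120120 + 1) ≤ 120120 * i := Nat.mul_le_mul_left _ h1
    omega
  have hlow : ∀ i, I < i → ∀ j ∈ Icc 1 S, ss b j ^ 2 < uu u0 i := by
    intro i hi j hj
    have h1 := hUlow i hi
    have h2 : ss b j ^ 2 ≤ σ ^ 2 := Nat.pow_le_pow_left (hss j hj) 2
    omega
  have hup0 : ∀ i ∈ Ioc I (I + H), uu u0 i ≤ 120120 + U + 120120 * H := by
    intro i hi
    rw [mem_Ioc] at hi
    unfold uu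
    have h1 : 120120 * i ≤ 120120 * (I + H) := Nat.mul_le_mul_left _ hi.2
    have h2 : 120120 * I ≤ U := Nat.mul_div_le U 120120
    have h3 : 120120 * (I + H) = 120120 * I + 120120 * H := by ring
    omega
  have hWW : 4 * (U + σ ^ 2) < W * W := Nat.lt_succ_sqrt _
  have hDD : 100 * 120120 * D + W * W ≤ D ^ 2 := by
    have h1 : D ^ 2 = 100 * 120120 * D + S * D + W * D := by
      rw [sq]
      nth_rewrite 1 [hD]
      ring
    have h2 : W * W ≤ W * D := Nat.mul_le_mul_left _ (by omega)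
    rw [h1]
    have h3 : 0 ≤ S * D := Nat.zero_le _
    omega
  have hupp : ∀ i ∈ Ioc I (I + H), ∀ j ∈ Icc 1 S, uu u0 i + ss b j ^ 2 < D ^ 2 := by
    intro i hi j hj
    have h1 := hup0 i hi
    have h2 : ss b j ^ 2 ≤ σ ^ 2 := Nat.pow_le_pow_left (hss j hj) 2
    have h3 : 1 ≤ D := by omega
    omega
  have hSr : (30750720 : ℝ) ≤ S := by
    rw [hS]
    push_cast
    linarith
  obtain ⟨i, hi, hgood⟩ := exists_good (u0 := u0) (b := b) (I := I) (H := H) (S := S) (D := D) hb hlow hupp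
    hSr (by
      have : S ≤ H := by omega
      exact_mod_cast this) (by rw [hH]; push_cast; ring)
  have hi1 := (mem_Ioc.1 hi).1
  have hui := hUlow i hi1
  have huu := hup0 i hi
  set u := uu u0 i with hu
  have hupos : 0 < u := by omega
  -- real bounds
  have hYY : (K : ℝ) * K ≤ K * Y := mul_le_mul_of_nonneg_left hKX (by linarith)
  have hYY2 : (K : ℝ) * Y ≤ Y * Y := mul_le_mul_of_nonneg_right hKX hY0.le
  have hσr : (σ : ℝ) = a * K := by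
    rw [hσ, hS, ha]
    push_cast
    ring
  have hσ2 : ((σ : ℝ)) ^ 2 = a ^ 2 * (K * K) := by rw [hσr]; ring
  have hVr : (V : ℝ) ≤ Y ^ 2 + 1 := (Nat.ceil_lt_add_one (by positivity)).le
  have hVr2 : Y ^ 2 ≤ (V : ℝ) := Nat.le_ceil _
  have hUr : (U : ℝ) = V + (σ : ℝ) ^ 2 := by rw [hU]; push_cast; ring
  have hWr : (W : ℝ) ≤ (4 + 3 * a) * Y := by
    have h1 : (Nat.sqrt (4 * (U + σ ^ 2))) ^ 2 ≤ 4 * (U + σ ^ 2) := Nat.sqrt_le' _
    have h2 : ((Nat.sqrt (4 * (U + σ ^ 2)) : ℕ) : ℝ) ^ 2 ≤ (3 * (1 + a) * Y) ^ 2 := by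
      have h3 : ((Nat.sqrt (4 * (U + σ ^ 2)) : ℕ) : ℝ) ^ 2 ≤ 4 * ((U : ℝ) + (σ : ℝ) ^ 2) := by
        exact_mod_cast h1
      refine h3.trans ?_
      rw [hUr, hσ2]
      have h4 : a ^ 2 * ((K : ℝ) * K) ≤ a ^ 2 * (Y * Y) :=
        mul_le_mul_of_nonneg_left (hYY.trans hYY2) (by positivity)
      nlinarith [mul_pos ha0 (mul_pos hY0 hY0)]
    have h3 : ((Nat.sqrt (4 * (U + σ ^ 2)) : ℕ) : ℝ) ≤ 3 * (1 + a) * Y :=
      (pow_le_pow_iff_left₀ (Nat.cast_nonneg _) (by positivity) (by norm_num)).1 h2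
    rw [hW]
    push_cast
    linarith
  have hDr : (D : ℝ) ≤ c1 * (K * Y) := by
    rw [hD, hS, hc1]
    push_cast
    have h1 : (Y : ℝ) ≤ K * Y := by nlinarith
    have h2 : (K : ℝ) ≤ K * Y := by nlinarith
    have h3 : (4 + 3 * a) * Y ≤ (4 + 3 * a) * (K * Y) := mul_le_mul_of_nonneg_left h1 (by positivity)
    nlinarith
  have hur : (u : ℝ) ≤ Y ^ 2 + c2 * (K * Y) := by
    have h1 : (u : ℝ) ≤ 120120 + U + 120120 * (48 * D) := by
      have h2 : u ≤ 120120 + U + 120120 * (48 * D) := huu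
      exact_mod_cast h2
    refine h1.trans ?_
    rw [hUr, hσ2, hc2]
    have h4 : a ^ 2 * ((K : ℝ) * K) ≤ a ^ 2 * (K * Y) := mul_le_mul_of_nonneg_left hYY (by positivity)
    nlinarith
  have hulow : (V : ℝ) + (σ : ℝ) ^ 2 ≤ u := by
    rw [← hUr]
    exact_mod_cast hui.le
  have hu0r : (0 : ℝ) < u := by exact_mod_cast hupos
  refine ⟨(u : ℝ) ^ 3 - u * (σ : ℝ) ^ 4, ?_, ?_, ?_⟩
  · have h1 : (u : ℝ) ^ 3 - u * (σ : ℝ) ^ 4 = u * ((u - (σ : ℝ) ^ 2) * (u + (σ : ℝ) ^ 2)) := by ring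
    rw [h1, hY6]
    have h2 : Y ^ 2 ≤ u - (σ : ℝ) ^ 2 := by linarith
    have h3 : Y ^ 2 ≤ u + (σ : ℝ) ^ 2 := by
      have : 0 ≤ (σ : ℝ) ^ 2 := by positivity
      linarith
    have h4 : Y ^ 2 ≤ u := by
      have : 0 ≤ (σ : ℝ) ^ 2 := by positivity
      linarith
    calc Y ^ 6 = Y ^ 2 * (Y ^ 2 * Y ^ 2) := by ring
      _ ≤ u * ((u - (σ : ℝ) ^ 2) * (u + (σ : ℝ) ^ 2)) :=
        mul_le_mul h4 (mul_le_mul h2 h3 (by positivity) (by linarith [sq_nonneg Y])) (by positivity) hu0r.le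
  · rw [hY5]
    have h1 : (u : ℝ) ^ 3 - u * (σ : ℝ) ^ 4 ≤ (Y ^ 2 + c2 * (K * Y)) ^ 3 := by
      have h2 : (u : ℝ) ^ 3 ≤ (Y ^ 2 + c2 * (K * Y)) ^ 3 := pow_le_pow_left₀ hu0r.le hur 3
      have h3 : 0 ≤ (u : ℝ) * (σ : ℝ) ^ 4 := by positivity
      linarith
    refine h1.trans ?_
    have e1 : (Y ^ 2 + c2 * (K * Y)) ^ 3 = Y ^ 6 + 3 * c2 * (K * Y ^ 5) +
        3 * c2 ^ 2 * ((K * K) * Y ^ 4) + c2 ^ 3 * ((K * K) * (K * Y ^ 3)) := by ring
    have e2 : ((K : ℝ) * K) * Y ^ 4 ≤ (K * Y) * Y ^ 4 :=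
      mul_le_mul_of_nonneg_right hYY (by positivity)
    have e3 : ((K : ℝ) * K) * (K * Y ^ 3) ≤ (K * Y) * (Y * Y ^ 3) :=
      mul_le_mul hYY (mul_le_mul_of_nonneg_right hKX (by positivity)) (by positivity) (by positivity)
    have e4 : ((K : ℝ) * Y) * Y ^ 4 = K * Y ^ 5 := by ring
    have e5 : ((K : ℝ) * Y) * (Y * Y ^ 3) = K * Y ^ 5 := by ring
    rw [e4] at e2
    rw [e5] at e3
    have e6 : 3 * c2 ^ 2 * (((K : ℝ) * K) * Y ^ 4) ≤ 3 * c2 ^ 2 * (K * Y ^ 5) :=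
      mul_le_mul_of_nonneg_left e2 (by positivity)
    have e7 : c2 ^ 3 * (((K : ℝ) * K) * (K * Y ^ 3)) ≤ c2 ^ 3 * (K * Y ^ 5) :=
      mul_le_mul_of_nonneg_left e3 (by positivity)
    have e8 : 0 ≤ (1 + c2) * a ^ 4 * (K * Y ^ 5) := by positivity
    rw [e1]
    have e9 : (3 * c2 + 3 * c2 ^ 2 + c2 ^ 3 + (1 + c2) * a ^ 4) * (K : ℝ) * Y ^ 5 =
        3 * c2 * (K * Y ^ 5) + 3 * c2 ^ 2 * (K * Y ^ 5) + c2 ^ 3 * (K * Y ^ 5) +
          (1 + c2) * a ^ 4 * (K * Y ^ 5) := by ring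
    rw [e9]
    linarith [hY6]
  · refine ⟨((Icc 1 S).filter fun j => ¬ Bad u0 b i j).image fun j => nn u (ss b j), ?_, ?_⟩
    · rw [Finset.card_image_of_injOn]
      · have h1 : (K : ℝ) ≤ (((Icc 1 S).filter fun j => ¬ Bad u0 b i j).card : ℝ) := by
          refine le_trans ?_ hgood
          rw [hS]
          push_cast
          linarith
        exact_mod_cast h1
      · intro j hj j' hj' h
        rw [Finset.mem_coe, Finset.mem_filter] at hj hj'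
        have h1 := nn_inj hupos (hlow i hi1 j hj.1) (hlow i hi1 j' hj'.1) h
        have h2 := (mem_Icc.1 hj.1).1
        have h3 := (mem_Icc.1 hj'.1).1
        unfold ss at h1
        omega
    · intro n hn
      obtain ⟨j, hj, rfl⟩ := Finset.mem_image.1 hn
      rw [Finset.mem_filter] at hj
      have hj1 := (mem_Icc.1 hj.1).1
      have hsj := hlow i hi1 j hj.1
      have hnr : ((nn u (ss b j) : ℕ) : ℝ) = (u : ℝ) ^ 3 - u * ((ss b j : ℕ) : ℝ) ^ 4 := by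
        exact_mod_cast congrArg (fun z : ℤ => (z : ℝ)) (nn_int hsj)
      have hs4 : ((ss b j : ℕ) : ℝ) ^ 4 ≤ (σ : ℝ) ^ 4 :=
        pow_le_pow_left₀ (Nat.cast_nonneg _) (by exact_mod_cast hss j hj.1) 4
      have hs4' : (u : ℝ) * ((ss b j : ℕ) : ℝ) ^ 4 ≤ u * (σ : ℝ) ^ 4 :=
        mul_le_mul_of_nonneg_left hs4 hu0r.le
      refine ⟨?_, ?_, nn_mod hcls hj1 hsj, good_sqf hcls hj1 hsj hj.2, u, ss b j, ?_, hsj, rfl⟩
      · rw [hnr]
        linarith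
      · rw [hnr, hY2]
        have h1 : (u : ℝ) * (σ : ℝ) ^ 4 ≤ ((1 + c2) * a ^ 4) * (K : ℝ) ^ 4 * Y ^ 2 := by
          have h2 : (u : ℝ) ≤ (1 + c2) * Y ^ 2 := by
            refine hur.trans ?_
            have h3 : c2 * ((K : ℝ) * Y) ≤ c2 * (Y * Y) := mul_le_mul_of_nonneg_left hYY2 hc20.le
            nlinarith
          have h4 : (σ : ℝ) ^ 4 = a ^ 4 * (K : ℝ) ^ 4 := by rw [hσr]; ring
          rw [h4]
          calc (u : ℝ) * (a ^ 4 * (K : ℝ) ^ 4) ≤ ((1 + c2) * Y ^ 2) * (a ^ 4 * (K : ℝ) ^ 4) :=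
                mul_le_mul_of_nonneg_right h2 (by positivity)
            _ = _ := by ring
        have h5 : 0 ≤ (3 * c2 + 3 * c2 ^ 2 + c2 ^ 3) * (K : ℝ) ^ 4 * Y ^ 2 := by positivity
        have h6 : 0 ≤ (u : ℝ) * ((ss b j : ℕ) : ℝ) ^ 4 := by positivity
        have h7 : ((3 * c2 + 3 * c2 ^ 2 + c2 ^ 3) + (1 + c2) * a ^ 4) * (K : ℝ) ^ 4 * Y ^ 2 =
          (3 * c2 + 3 * c2 ^ 2 + c2 ^ 3) * (K : ℝ) ^ 4 * Y ^ 2 +
          ((1 + c2) * a ^ 4) * (K : ℝ) ^ 4 * Y ^ 2 := by ring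
        rw [h7]
        linarith
      · unfold ss
        omega

end Pool.Agent.R219.CC
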